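import Mathlib
import Pool.Agent.Tor.All.Iso

/-!
# The symmetries of a lattice: definitions
-/

set_option autoImplicit false

namespace Pool.Agent.Tor.Reg

/-- The points of the lattice `T` in `ℤ^n`. -/
def Pt {n : ℕ} (T : AddSubgroup (Fin n → ℤ)) : Type := T

instance ptGroup {n : ℕ} (T : AddSubgroup (Fin n → ℤ)) : AddCommGroup (Pt T) :=
  inferInstanceAs (AddCommGroup T)

/-- The squared Euclidean distance of two points. -/
def sqDist {n : ℕ} {T : AddSubgroup (Fin n → ℤ)} (x y : Pt T) : ℤ := ∑ i, (x.1 i - y.1 i) ^ 2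

/-- The symmetry group of a regular tessellation of `E^n` with vertex set the lattice `T`: all
bijections of `T` which preserve (squared) Euclidean distances. -/
def isomGroup {n : ℕ} (T : AddSubgroup (Fin n → ℤ)) : Subgroup (Equiv.Perm (Pt T)) where
  carrier := {f | ∀ x y, sqDist (f x) (f y) = sqDist x y}
  mul_mem' {f g} hf hg x y := by
    rw [Equiv.Perm.mul_apply, Equiv.Perm.mul_apply, hf, hg]
  one_mem' x y := rfl
  inv_mem' {f} hf x y := by
    rw [← hf]
    simp

/-- The symmetry group as a type. -/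
def Isom {n : ℕ} (T : AddSubgroup (Fin n → ℤ)) : Type := isomGroup T

instance isomGrp {n : ℕ} (T : AddSubgroup (Fin n → ℤ)) : Group (Isom T) :=
  inferInstanceAs (Group (isomGroup T))

/-- The image of a point under a symmetry. -/
def app {n : ℕ} {T : AddSubgroup (Fin n → ℤ)} (f : Isom T) (x : Pt T) : Pt T := f.1 x

/-- The point group: the symmetries which fix the origin. -/
def pointGroup {n : ℕ} (T : AddSubgroup (Fin n → ℤ)) : Subgroup (Equiv.Perm (Pt T)) where
  carrier := {f | f ∈ isomGroup T ∧ f 0 = 0}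
  mul_mem' {f g} hf hg := ⟨mul_mem hf.1 hg.1, by rw [Equiv.Perm.mul_apply, hg.2, hf.2]⟩
  one_mem' := ⟨one_mem _, rfl⟩
  inv_mem' {f} hf := ⟨inv_mem hf.1, by rw [Equiv.Perm.inv_eq_iff_eq, hf.2]⟩

/-- The point group as a type. -/
def PointGroup {n : ℕ} (T : AddSubgroup (Fin n → ℤ)) : Type := pointGroup T

instance pointGrp {n : ℕ} (T : AddSubgroup (Fin n → ℤ)) : Group (PointGroup T) :=
  inferInstanceAs (Group (pointGroup T))

/-- The action of the point group. -/
instance pointAction {n : ℕ} (T : AddSubgroup (Fin n → ℤ)) :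
    DistribMulAction (PointGroup T) (Pt T) where
  smul f x := f.1 x
  one_smul x := rfl
  mul_smul f g x := rfl
  smul_zero f := f.2.2
  smul_add f x y := All.point_add (T := T) f.2 x y

end Pool.Agent.Tor.Reg
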