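import Mathlib
import Pool.Agent.Tor.TyDefs

/-!
# A finite group `W` acting on an abelian group `T`: definitions
-/

set_option autoImplicit false

namespace Pool.Agent.Tor.Reg

/-- The subgroup generated by the images of `v` under the group `W`. -/
def orbitSpan {T : Type} (W : Type) [Group W] [AddCommGroup T] [DistribMulAction W T] (v : T) :
    AddSubgroup T := AddSubgroup.closure {x | ∃ w : W, w • v = x}

/-- The multiples of `m`. -/
def multiplesOf {T : Type} [AddCommGroup T] (m : ℕ) : AddSubgroup T := (nsmulAddMonoidHom m).range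

/-- The subgroup `M` of `T` is stable under the subgroup `Q` of `W`. -/
def StableUnder {W T : Type} [Group W] [AddCommGroup T] [DistribMulAction W T] (Q : Subgroup W)
    (M : AddSubgroup T) : Prop := ∀ q ∈ Q, ∀ x ∈ M, q • x ∈ M

/-- The core of `M` (the intersection of all images of `M` under the group `W`) is `L`. -/
def CoreIs {T : Type} (W : Type) [Group W] [AddCommGroup T] [DistribMulAction W T]
    (M L : AddSubgroup T) : Prop := ∀ x : T, (∀ w : W, w • x ∈ M) ↔ x ∈ L

/-- For the list `(G_1, a_1), .., (G_r, a_r)` with `a = a_1 + .. + a_r`: some `Q`-stable subgroup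
`M` of `T` containing `p^a T` has the layers `(M : p^j) + p T`, for `j = 0, 1, ..`, equal to
`G_1` (`a_1` times), `G_2` (`a_2` times), .., `G_r` (`a_r` times), `T`, `T`, .. . -/
def Realizable {W T : Type} [Group W] [AddCommGroup T] [DistribMulAction W T] (Q : Subgroup W)
    (p : ℕ) (L : List (AddSubgroup T × ℕ)) : Prop :=
  ∃ M : AddSubgroup T, StableUnder Q M ∧ (∀ x : T, p ^ tot L • x ∈ M) ∧
    ∀ (j : ℕ) (x : T), x ∈ layerAt L j ↔ ∃ y : T, p ^ j • (x - p • y) ∈ M

/-- The list `(G_1, a_1), .., (G_r, a_r)` is admissible for `Q`, `p`, `b`, `Y`: we have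
`G_1 < .. < G_r < T`, all `G_i` are `Q`-stable and contain `p T`, all `a_i` are at least `1` and
their sum is `b`, the core of `G_r` is `Y`, and if `p` divides the order of `Q` then the list
`(G_1, min a_1 R), .., (G_r, min a_r R)` is realizable, where `R = 2 c + 2` and `p^c` is the exact
power of `p` dividing the order of `Q`. -/
def Admissible {W T : Type} [Group W] [AddCommGroup T] [DistribMulAction W T] (Q : Subgroup W)
    (p b : ℕ) (Y : AddSubgroup T) (L : List (AddSubgroup T × ℕ)) : Prop :=
  (∀ x ∈ L, StableUnder Q x.1 ∧ (∀ y : T, p • y ∈ x.1) ∧ x.1 ≠ ⊤ ∧ 1 ≤ x.2) ∧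
  L.Pairwise (fun x y => x.1 < y.1) ∧ tot L = b ∧
  (∀ x ∈ L.getLast?, CoreIs W x.1 Y) ∧
  (p ∣ Nat.card Q → Realizable Q p (cut (2 * (Nat.card Q).factorization p + 2) L))

open Classical in
/-- The exponent of `p` in `s`, plus one if `p = 2` and the images of `v` do not generate `T`. -/
noncomputable def localExp {T : Type} (W : Type) [Group W] [AddCommGroup T] [DistribMulAction W T]
    (v : T) (s p : ℕ) : ℕ :=
  if p = 2 ∧ orbitSpan W v ≠ ⊤ then s.factorization p + 1 else s.factorization p

open Classical in
/-- The subgroup `p T`, but the subgroup generated by the images of `v` if `p = 2` and these do not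
generate `T`. -/
noncomputable def localCore {T : Type} (W : Type) [Group W] [AddCommGroup T]
    [DistribMulAction W T] (v : T) (p : ℕ) : AddSubgroup T :=
  if p = 2 ∧ orbitSpan W v ≠ ⊤ then orbitSpan W v else multiplesOf p

/-- All products `[W : Q] ∏_p ∏_i [T : G_{p,i}]^(a_{p,i})`, where `Q` is a subgroup of `W`, the
prime `p` runs through the prime divisors of `2 s`, and for each `p` the list of the pairs
`(G_{p,i}, a_{p,i})` is admissible. -/
def degreeSet {T : Type} (W : Type) [Group W] [AddCommGroup T] [DistribMulAction W T] (v : T)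
    (s : ℕ) : Set ℕ :=
  {d | ∃ (Q : Subgroup W) (L : ℕ → List (AddSubgroup T × ℕ)),
    (∀ p ∈ (2 * s).primeFactors, Admissible Q p (localExp W v s p) (localCore W v p) (L p)) ∧
    d = Q.index * ∏ p ∈ (2 * s).primeFactors, ((L p).map fun x => x.1.index ^ x.2).prod}

end Pool.Agent.Tor.Reg
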