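import Mathlib
import Pool.Agent.Tor.Reg.Gen
import Pool.Agent.Tor.Reg.Defs

/-!
# The families of regular toroids, and the exceptional sets
-/

set_option autoImplicit false

namespace Pool.Agent.Tor.Reg

/-- The lattice `ℤ^n`, the vertex set of the cubic tessellation `{4, 3^(n-2), 4}`. -/
def cubic (n : ℕ) : AddSubgroup (Fin n → ℤ) := ⊤

/-- The vector `(1^k, 0^(n-k))` of `ℤ^n`. -/
def cubicSeed (n k : ℕ) : Pt (cubic n) := ⟨seed n k 1, AddSubgroup.mem_top _⟩

/-- The vectors of `ℤ^4` all of whose coordinates have the same parity: twice the lattice of the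
Hurwitz quaternions, the vertex set of the tessellation `{3, 3, 4, 3}`. -/
def hurwitz : AddSubgroup (Fin 4 → ℤ) where
  carrier := {x | ∀ i j, 2 ∣ x i - x j}
  add_mem' {a b} ha hb i j := by
    have : (a + b) i - (a + b) j = (a i - a j) + (b i - b j) := by
      rw [Pi.add_apply, Pi.add_apply]
      ring
    rw [this]
    exact dvd_add (ha i j) (hb i j)
  zero_mem' i j := by simp
  neg_mem' {a} ha i j := by
    have : (-a) i - (-a) j = - (a i - a j) := by
      rw [Pi.neg_apply, Pi.neg_apply]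
      ring
    rw [this]
    exact (dvd_neg).mpr (ha i j)

/-- The vector `2 (1^k, 0^(4-k))` of the lattice `hurwitz`. -/
def hurwitzSeed (k : ℕ) : Pt hurwitz := ⟨seed 4 k 2, fun i j => by
  unfold seed
  split_ifs <;> norm_num⟩

/-- The products `[S_n : Q] [N : M]`, where `N = (ℤ × ℤ)^n` with the natural action of the
symmetric group `S_n`, `Q` is a subgroup of `S_n` and `M` is a `Q`-stable subgroup of `N` such that
the intersection of the images of `M` under `S_n` is `2 N`. -/
def exceptionalCubic (n : ℕ) : Set ℕ :=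
  {d | ∃ (Q : Subgroup (Equiv.Perm (Fin n))) (M : AddSubgroup (Fin n → ℤ × ℤ)),
    (∀ σ ∈ Q, ∀ x ∈ M, x ∘ σ ∈ M) ∧
    (∀ x : Fin n → ℤ × ℤ, (∀ σ : Equiv.Perm (Fin n), x ∘ σ ∈ M) ↔
      ∀ i, 2 ∣ (x i).1 ∧ 2 ∣ (x i).2) ∧
    d = Q.index * M.index}

/-- The products `[W : Q] [T : M]`, where `T` is the lattice `hurwitz` with point group `W`, `Q` is
a subgroup of `W` and `M` is a `Q`-stable subgroup of `T` with core `2 T` such that there is a
crossed homomorphism from `Q` to `T / M` (given by a map `c` to `T`) which is nonzero at `-1` in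
case `-1` lies in `Q`. -/
def exceptionalHurwitz : Set ℕ :=
  {d | ∃ (Q : Subgroup (PointGroup hurwitz)) (M : AddSubgroup (Pt hurwitz))
      (c : PointGroup hurwitz → Pt hurwitz),
    StableUnder Q M ∧ CoreIs (PointGroup hurwitz) M (multiplesOf 2) ∧
    (∀ q ∈ Q, ∀ r ∈ Q, c (q * r) - (c q + q • c r) ∈ M) ∧
    (∀ q ∈ Q, (∀ x : Pt hurwitz, q • x = -x) → c q ∉ M) ∧
    d = Q.index * M.index}

end Pool.Agent.Tor.Reg
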