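import Mathlib
import Pool.Agent.Tor.Reg.Gen
import Pool.Agent.Tor.Reg.Defs

/-!
# The translations: definitions
-/

set_option autoImplicit false

namespace Pool.Agent.Tor.Reg

/-- The translations by the vectors of the lattice generated by the images of `v` under the point
group. -/
def translations {n : ℕ} (T : AddSubgroup (Fin n → ℤ)) (v : Pt T) : Subgroup (Isom T) where
  carrier := {f | ∃ u ∈ orbitSpan (PointGroup T) v, ∀ x, app f x = x + u}
  mul_mem' {f g} := by
    rintro ⟨v, hv, hf⟩ ⟨w, hw, hg⟩
    refine ⟨w + v, add_mem hw hv, fun x => ?_⟩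
    show app f (app g x) = _
    rw [hg, hf, add_assoc]
  one_mem' := ⟨0, zero_mem _, fun x => (add_zero x).symm⟩
  inv_mem' {f} := by
    rintro ⟨v, hv, hf⟩
    refine ⟨-v, neg_mem hv, fun x => ?_⟩
    have h1 : app f (x + -v) = x := by
      rw [hf]
      abel
    have h2 : app f⁻¹ (app f (x + -v)) = x + -v := by
      show app (f⁻¹ * f) (x + -v) = x + -v
      rw [inv_mul_cancel]
      rfl
    rw [h1] at h2
    exact h2

end Pool.Agent.Tor.Reg
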