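import Mathlib
import Pool.Agent.Tor.Reg.Trans

/-!
# Normality of the translations
-/

set_option autoImplicit false

namespace Pool.Agent.Tor.Reg

variable {n : ℕ} {T : AddSubgroup (Fin n → ℤ)}

theorem orbit_eq (v : Pt T) :
    orbitSpan (PointGroup T) v = (All.orbitLattice T v : AddSubgroup (Pt T)) := by
  have h := All.orbitLattice_eq (T := T) v
  exact h.symm

theorem translations_eq (v : Pt T) :
    translations T v = (All.translationsBy T v : Subgroup (Isom T)) := by
  ext f
  constructor
  · rintro ⟨u, hu, hf⟩
    rw [orbit_eq] at hu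
    exact ⟨u, hu, hf⟩
  · rintro ⟨u, hu, hf⟩
    refine ⟨u, ?_, hf⟩
    rw [orbit_eq]
    exact hu

theorem conj_mem_translations (v : Pt T) (f : Isom T) (hf : f ∈ translations T v) (g : Isom T) :
    g * f * g⁻¹ ∈ translations T v := by
  rw [translations_eq] at hf ⊢
  exact All.conj_mem_translationsBy (T := T) (v := v) f hf g

end Pool.Agent.Tor.Reg
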