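import Mathlib
import Pool.Agent.Tor.Reg.Norm

/-!
# The group of a regular toroid
-/

set_option autoImplicit false

namespace Pool.Agent.Tor.Reg

instance normalTr {n : ℕ} (T : AddSubgroup (Fin n → ℤ)) (v : Pt T) : (translations T v).Normal where
  conj_mem := conj_mem_translations v

/-- The group of a regular toroid: the symmetry group of the tessellation with vertex set `T`
modulo the translations by the vectors of the lattice generated by the images of `v`. -/
abbrev Gamma {n : ℕ} (T : AddSubgroup (Fin n → ℤ)) (v : Pt T) : Type := Isom T ⧸ translations T v

end Pool.Agent.Tor.Reg
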