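import Mathlib
import Pool.Agent.Tor.Reg.Toroid
import Pool.Agent.Tor.Reg.Families
import Pool.Agent.Tor.All.Cubic
import Pool.Agent.Tor.All.Hur

/-!
# The main theorems in terms of the final definitions
-/

set_option autoImplicit false

namespace Pool.Agent.Tor.Reg

variable {n : ℕ} {T : AddSubgroup (Fin n → ℤ)}

/-- The two versions of the symmetry group agree. -/
def eI (T : AddSubgroup (Fin n → ℤ)) : Isom T ≃* All.isomGroup T :=
  MulEquiv.refl (All.isomGroup T)

theorem map_eI (v : Pt T) : (translations T v).map (eI T).toMonoidHom = All.translationsBy T v := by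
  rw [translations_eq]
  ext f
  constructor
  · rintro ⟨g, hg, rfl⟩
    exact hg
  · intro hf
    exact ⟨f, hf, rfl⟩

/-- A point as an element of the lattice. -/
def toPt (v : T) : Pt T := v

theorem degrees_gamma (v : T) : Degrees (Gamma T (toPt v)) = Degrees (All.Gamma T v) :=
  degrees_congr (QuotientGroup.congr (translations T (toPt v)) (All.translationsBy T v) (eI T)
    (map_eI (toPt v)))

theorem localExp_eq (v : Pt T) (s p : ℕ) :
    localExp (PointGroup T) v s p = All.localExp T v s p := by
  unfold localExp All.localExp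
  rw [orbit_eq]
  rfl

theorem localCore_eq (v : Pt T) (p : ℕ) :
    localCore (PointGroup T) v p = (All.localCore T v p : AddSubgroup (Pt T)) := by
  unfold localCore All.localCore
  rw [orbit_eq]
  rfl

theorem degreeSet_eq (v : Pt T) (s : ℕ) :
    degreeSet (PointGroup T) v s = All.degreeSet T v s := by
  unfold degreeSet
  simp only [localExp_eq, localCore_eq]
  rfl

theorem final_cubic {n k s : ℕ} (hn : 3 ≤ n) (hk : k = 1 ∨ k = 2 ∨ k = n) (hs : 2 ≤ s)
    (hks : ¬ (k = 1 ∧ s = 2)) :
    Degrees (Gamma (cubic n) (s • cubicSeed n k)) =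
      degreeSet (PointGroup (cubic n)) (cubicSeed n k) s := by
  refine (degrees_gamma (T := cubic n) (s • cubicSeed n k)).trans ?_
  rw [degreeSet_eq]
  exact All.main_cubic hn hk hs hks

theorem final_hurwitz {k s : ℕ} (hk : k = 1 ∨ k = 2) (hs : 2 ≤ s) (hks : ¬ (k = 1 ∧ s = 2)) :
    Degrees (Gamma hurwitz (s • hurwitzSeed k)) =
      degreeSet (PointGroup hurwitz) (hurwitzSeed k) s := by
  refine (degrees_gamma (T := hurwitz) (s • hurwitzSeed k)).trans ?_
  rw [degreeSet_eq]
  exact All.main_hurwitz hk hs hks

theorem final_exceptional (n : ℕ) :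
    Degrees (Gamma (cubic n) (2 • cubicSeed n 1)) = exceptionalCubic n := by
  refine (degrees_gamma (T := cubic n) (2 • cubicSeed n 1)).trans ?_
  exact All.main_exceptional n

theorem final_exceptional4 :
    Degrees (Gamma hurwitz (2 • hurwitzSeed 1)) = exceptionalHurwitz := by
  refine (degrees_gamma (T := hurwitz) (2 • hurwitzSeed 1)).trans ?_
  exact All.main_exceptional4

end Pool.Agent.Tor.Reg
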